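import Pool.Agent.L7h1.AS.Stm

set_option autoImplicit false

namespace Pool.Agent.L7h89.AS

open Finset Pool.Agent.L7h1.AS

/-- `zN` tends to infinity. -/
theorem zN_large (Z : ℕ) : ∃ X₀ : ℕ, ∀ N : ℕ, X₀ ≤ N → Z ≤ zN N := by
  refine ⟨⌈Real.exp (4 ^ Z)⌉₊, fun N hN => ?_⟩
  have h1 : Real.exp (4 ^ Z) ≤ N := (Nat.le_ceil _).trans (by exact_mod_cast hN)
  have hNpos : (0 : ℝ) < N := (Real.exp_pos _).trans_le h1
  have h2 : (4 : ℝ) ^ Z ≤ Real.log N := (Real.le_log_iff_exp_le hNpos).2 h1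
  have h3 : 4 ^ Z ≤ ⌊Real.log N⌋₊ := Nat.le_floor (by exact_mod_cast h2)
  unfold zN
  exact Nat.le_log_of_pow_le (by norm_num) h3

theorem s_PZ : S_PZ := by
  intro Z
  obtain ⟨X, hX⟩ := zN_large (Z + 1)
  refine ⟨X, fun N hN => ?_⟩
  have h := hX N hN
  refine ⟨by omega, primorial_pos _, ?_⟩
  have hne : ⌊Real.log N⌋₊ ≠ 0 := by
    intro h0
    unfold zN at h
    rw [h0] at h
    simp at h
  have h1 : primorial (zN N) ≤ ⌊Real.log N⌋₊ :=
    (primorial_le_four_pow _).trans (Nat.pow_log_le_self 4 hne)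
  have h2 : (0 : ℝ) ≤ Real.log N := by
    by_contra hneg
    exact hne (Nat.floor_of_nonpos (not_le.1 hneg).le)
  exact (by exact_mod_cast h1 : (primorial (zN N) : ℝ) ≤ (⌊Real.log N⌋₊ : ℝ)).trans
    (Nat.floor_le h2)

/-- the logarithm is below `4 ^ (zN N + 2)` -/
theorem log_lt (N : ℕ) : Real.log N < 4 ^ (zN N + 2) := by
  have h1 : Real.log N < ⌊Real.log N⌋₊ + 1 := Nat.lt_floor_add_one _
  have h2 : ⌊Real.log N⌋₊ < 4 ^ (zN N + 1) := Nat.lt_pow_succ_log_self (by norm_num) _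
  have h3 : (⌊Real.log N⌋₊ : ℝ) + 1 ≤ 4 ^ (zN N + 1) := by exact_mod_cast h2
  have h4 : (4 : ℝ) ^ (zN N + 1) ≤ 4 ^ (zN N + 2) :=
    pow_le_pow_right₀ (by norm_num) (by omega)
  linarith

theorem s_TAIL : S_TAIL := by
  intro C ε hε
  have hlog : 0 < Real.log (1 + ε) := Real.log_pos (by linarith)
  obtain ⟨X, hX⟩ := zN_large (4 + ⌈Real.exp (2 * C * Real.log 4 / Real.log (1 + ε))⌉₊)
  refine ⟨max X 3, fun N hN d hd hdC => ?_⟩
  have hz := hX N ((le_max_left _ _).trans hN)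
  have hN3 : 3 ≤ N := (le_max_right _ _).trans hN
  have hlogN : 0 ≤ Real.log N := Real.log_nonneg (by exact_mod_cast (by omega : 1 ≤ N))
  set z := zN N with hzdef
  set T := d.primeFactors.filter (fun p => z < p) with hT
  have hz4 : 4 ≤ z := by omega
  have hzR : (4 : ℝ) ≤ z := by exact_mod_cast hz4
  have hzE : Real.exp (2 * C * Real.log 4 / Real.log (1 + ε)) ≤ (z : ℝ) + 1 := by
    have h := Nat.le_ceil (Real.exp (2 * C * Real.log 4 / Real.log (1 + ε)))
    have h' : (⌈Real.exp (2 * C * Real.log 4 / Real.log (1 + ε))⌉₊ : ℝ) ≤ z := by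
      exact_mod_cast (by omega : ⌈Real.exp (2 * C * Real.log 4 / Real.log (1 + ε))⌉₊ ≤ z)
    linarith
  -- the number of the primes
  have hprod : (z + 1) ^ T.card ≤ d := by
    calc (z + 1) ^ T.card = ∏ _p ∈ T, (z + 1) := by simp
      _ ≤ ∏ p ∈ T, p := by
          refine Finset.prod_le_prod' fun p hp => ?_
          have := (Finset.mem_filter.1 hp).2
          omega
      _ ≤ ∏ p ∈ d.primeFactors, p := by
          refine Finset.prod_le_prod_of_subset_of_one_le' (Finset.filter_subset _ _) ?_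
          intro p hp _
          exact (Nat.prime_of_mem_primeFactors hp).one_lt.le
      _ ≤ d := Nat.le_of_dvd (by omega) (Nat.prod_primeFactors_dvd d)
  have hk1 : ((z : ℝ) + 1) ^ T.card ≤ ((4 : ℝ) ^ (z + 2)) ^ C := by
    have h1 : ((z : ℝ) + 1) ^ T.card ≤ d := by exact_mod_cast hprod
    refine h1.trans (hdC.trans ?_)
    exact pow_le_pow_left₀ hlogN (log_lt N).le C
  have hk2 : (T.card : ℝ) * Real.log (z + 1) ≤ C * ((z + 2) * Real.log 4) := by
    have h := Real.log_le_log (by positivity) hk1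
    rw [Real.log_pow, Real.log_pow, Real.log_pow] at h
    push_cast at h
    exact h
  have hlz : 0 < Real.log ((z : ℝ) + 1) := Real.log_pos (by linarith)
  have hlz2 : 2 * C * Real.log 4 / Real.log (1 + ε) ≤ Real.log ((z : ℝ) + 1) :=
    (Real.le_log_iff_exp_le (by linarith)).2 hzE
  have hk3 : (T.card : ℝ) / (z - 1) ≤ Real.log (1 + ε) := by
    have hz1 : (0 : ℝ) < z - 1 := by linarith
    rw [div_le_iff₀ hz1]
    rw [div_le_iff₀ hlog] at hlz2
    have hl4 : 0 < Real.log 4 := Real.log_pos (by norm_num)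
    -- k * log (z+1) ≤ C (z+2) log 4 ≤ 2 C (z-1) log 4 ≤ log (z+1) * log(1+ε) * (z-1)
    have h1 : (C : ℝ) * ((z + 2) * Real.log 4) ≤ (2 * C * Real.log 4) * (z - 1) := by
      have hC : (0 : ℝ) ≤ C * Real.log 4 := by positivity
      nlinarith
    have h2 : (2 * C * Real.log 4) * ((z : ℝ) - 1) ≤
        (Real.log ((z : ℝ) + 1) * Real.log (1 + ε)) * (z - 1) :=
      mul_le_mul_of_nonneg_right hlz2 hz1.le
    have h3 : (T.card : ℝ) * Real.log (z + 1) ≤
        (Real.log (1 + ε) * (z - 1)) * Real.log (z + 1) := by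
      calc (T.card : ℝ) * Real.log (z + 1) ≤ C * ((z + 2) * Real.log 4) := hk2
        _ ≤ _ := h1
        _ ≤ _ := h2
        _ = _ := by ring
    exact le_of_mul_le_mul_right h3 hlz
  calc ∏ p ∈ T, (((p : ℝ) - 1) / ((p : ℝ) - 2))
      ≤ ∏ _p ∈ T, Real.exp (1 / ((z : ℝ) - 1)) := by
        refine Finset.prod_le_prod (fun p hp => ?_) (fun p hp => ?_)
        · have hp' : (z : ℝ) + 1 ≤ p := by exact_mod_cast (Finset.mem_filter.1 hp).2
          exact div_nonneg (by linarith) (by linarith)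
        · have hp' : (z : ℝ) + 1 ≤ p := by exact_mod_cast (Finset.mem_filter.1 hp).2
          have h2 : (0 : ℝ) < (p : ℝ) - 2 := by linarith
          have h3 : ((p : ℝ) - 1) / ((p : ℝ) - 2) = 1 / ((p : ℝ) - 2) + 1 := by
            field_simp
            ring
          rw [h3]
          have h4 : 1 / ((p : ℝ) - 2) ≤ 1 / ((z : ℝ) - 1) :=
            one_div_le_one_div_of_le (by linarith) (by linarith)
          linarith [Real.add_one_le_exp (1 / ((z : ℝ) - 1))]
    _ = Real.exp ((T.card : ℝ) / (z - 1)) := by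
        rw [Finset.prod_const, ← Real.exp_nat_mul]
        congr 1
        ring
    _ ≤ Real.exp (Real.log (1 + ε)) := Real.exp_le_exp.2 hk3
    _ = 1 + ε := Real.exp_log (by linarith)

end Pool.Agent.L7h89.AS
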